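import Mathlib

/-!
# The value `f_r(s+2,s) = ⌈(2s-1)r/2⌉`
-/

open Finset

namespace Pool.Agent.Results.MP_a8cb64_co.SlackTwo

/-- `T` is a transversal of the family `F`: it meets every member of `F`. -/
def IsTransversal {V : Type*} [DecidableEq V] (T : Finset V) (F : Finset (Finset V)) : Prop :=
  ∀ e ∈ F, (T ∩ e).Nonempty

/-- `H` is an `r`-graph and every subfamily of at most `k` edges of `H` has a transversal of at
most `s` vertices. -/
def Local {V : Type*} [DecidableEq V] (r k s : ℕ) (H : Finset (Finset V)) : Prop :=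
  (∀ e ∈ H, e.card = r) ∧
    ∀ F ⊆ H, F.card ≤ k → ∃ T : Finset V, T.card ≤ s ∧ IsTransversal T F

/-- `f_r(k,s)`: the least `f` such that every finite `r`-graph, all of whose subfamilies of at most
`k` edges have a transversal of at most `s` vertices, has a transversal of at most `f`
vertices. -/
noncomputable def f (r k s : ℕ) : ℕ :=
  sInf {f : ℕ | ∀ (n : ℕ) (H : Finset (Finset (Fin n))), Local r k s H →
    ∃ T : Finset (Fin n), T.card ≤ f ∧ IsTransversal T H}

section general

variable {V : Type*} [DecidableEq V]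

theorem IsTransversal.mono {T : Finset V} {F F' : Finset (Finset V)} (h : IsTransversal T F)
    (hF : F' ⊆ F) : IsTransversal T F' := fun e he => h e (hF he)

theorem IsTransversal.union {T T' : Finset V} {F F' : Finset (Finset V)}
    (h : IsTransversal T F) (h' : IsTransversal T' F') : IsTransversal (T ∪ T') (F ∪ F') := by
  intro e he
  rcases mem_union.mp he with he | he
  · obtain ⟨x, hx⟩ := h e he
    rw [mem_inter] at hx
    exact ⟨x, mem_inter.mpr ⟨mem_union_left _ hx.1, hx.2⟩⟩
  · obtain ⟨x, hx⟩ := h' e he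
    rw [mem_inter] at hx
    exact ⟨x, mem_inter.mpr ⟨mem_union_right _ hx.1, hx.2⟩⟩

/-- one vertex from each member -/
theorem pick (F : Finset (Finset V)) (hF : ∀ e ∈ F, e.Nonempty) :
    ∃ T : Finset V, T.card ≤ F.card ∧ IsTransversal T F := by
  classical
  induction F using Finset.induction_on with
  | empty => exact ⟨∅, by simp, fun e he => by simp at he⟩
  | insert e F he ih =>
    obtain ⟨T, hT1, hT2⟩ := ih (fun e' he' => hF e' (mem_insert_of_mem he'))
    obtain ⟨x, hx⟩ := hF e (mem_insert_self _ _)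
    refine ⟨insert x T, ?_, ?_⟩
    · rw [card_insert_of_notMem he]
      exact (card_insert_le _ _).trans (by omega)
    · intro e' he'
      rcases mem_insert.mp he' with rfl | h
      · exact ⟨x, mem_inter.mpr ⟨mem_insert_self _ _, hx⟩⟩
      · obtain ⟨y, hy⟩ := hT2 e' h
        rw [mem_inter] at hy
        exact ⟨y, mem_inter.mpr ⟨mem_insert_of_mem hy.1, hy.2⟩⟩

/-- a transversal of `F` from a vertex common to the members of `G ⊆ F` -/
theorem pick_common (F G : Finset (Finset V)) (hF : ∀ e ∈ F, e.Nonempty) (hG : G ⊆ F) (v : V)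
    (hv : ∀ e ∈ G, v ∈ e) :
    ∃ T : Finset V, T.card ≤ 1 + (F.card - G.card) ∧ IsTransversal T F := by
  classical
  obtain ⟨T, hT1, hT2⟩ := pick (F \ G) (fun e he => hF e (mem_sdiff.mp he).1)
  refine ⟨{v} ∪ T, ?_, ?_⟩
  · refine (card_union_le _ _).trans ?_
    rw [card_sdiff_of_subset hG] at hT1
    rw [card_singleton]
    omega
  · have h1 : IsTransversal ({v} : Finset V) G := fun e he =>
      ⟨v, mem_inter.mpr ⟨mem_singleton_self v, hv e he⟩⟩
    have := h1.union hT2
    rwa [union_sdiff_of_subset hG] at this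

/-- a transversal of `F` from two vertices, common to the members of `G ⊆ F` resp. `G' ⊆ F` -/
theorem pick_common2 (F G G' : Finset (Finset V)) (hF : ∀ e ∈ F, e.Nonempty) (hG : G ⊆ F)
    (hG' : G' ⊆ F) (hd : Disjoint G G') (v w : V)
    (hv : ∀ e ∈ G, v ∈ e) (hw : ∀ e ∈ G', w ∈ e) :
    ∃ T : Finset V, T.card ≤ 2 + (F.card - (G.card + G'.card)) ∧ IsTransversal T F := by
  classical
  obtain ⟨T, hT1, hT2⟩ := pick (F \ (G ∪ G')) (fun e he => hF e (mem_sdiff.mp he).1)
  have hsub : G ∪ G' ⊆ F := union_subset hG hG'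
  refine ⟨({v} ∪ {w}) ∪ T, ?_, ?_⟩
  · refine (card_union_le _ _).trans ?_
    rw [card_sdiff_of_subset hsub, card_union_of_disjoint hd] at hT1
    have : ({v} ∪ {w} : Finset V).card ≤ 2 := (card_union_le _ _).trans (by simp)
    omega
  · have h1 : IsTransversal ({v} : Finset V) G := fun e he =>
      ⟨v, mem_inter.mpr ⟨mem_singleton_self v, hv e he⟩⟩
    have h2 : IsTransversal ({w} : Finset V) G' := fun e he =>
      ⟨w, mem_inter.mpr ⟨mem_singleton_self w, hw e he⟩⟩
    have := (h1.union h2).union hT2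
    rwa [union_sdiff_of_subset hsub] at this

/-- base case of the upper bound: if every three edges have a common vertex -/
theorem upper_one (r : ℕ) (H : Finset (Finset V)) (hH : Local r 3 1 H) :
    ∃ T : Finset V, T.card ≤ (r + 1) / 2 ∧ IsTransversal T H := by
  classical
  rcases H.eq_empty_or_nonempty with rfl | hne
  · exact ⟨∅, by simp, fun e he => by simp at he⟩
  -- three edges have a common vertex
  have hcommon : ∀ a ∈ H, ∀ b ∈ H, ∀ c ∈ H, ∃ x, x ∈ a ∧ x ∈ b ∧ x ∈ c := by
    intro a ha b hb c hc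
    obtain ⟨T, hT1, hT2⟩ := hH.2 {a, b, c} (by
      intro x hx
      simp only [mem_insert, mem_singleton] at hx
      rcases hx with rfl | rfl | rfl <;> assumption) (by
      refine (card_insert_le _ _).trans ?_
      have := card_insert_le b ({c} : Finset (Finset V))
      simp only [card_singleton] at this
      omega)
    obtain ⟨x, hx⟩ := hT2 a (by simp)
    obtain ⟨y, hy⟩ := hT2 b (by simp)
    obtain ⟨z, hz⟩ := hT2 c (by simp)
    rw [mem_inter] at hx hy hz
    have h1 := Finset.card_le_one.mp hT1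
    have e1 := h1 x hx.1 y hy.1
    have e2 := h1 x hx.1 z hz.1
    exact ⟨x, hx.2, e1 ▸ hy.2, e2 ▸ hz.2⟩
  obtain ⟨p, hp, hmin⟩ := Finset.exists_min_image (H ×ˢ H) (fun p => (p.1 ∩ p.2).card)
    (hne.product hne)
  obtain ⟨a, b⟩ := p
  rw [mem_product] at hp
  by_cases hm : (a ∩ b).card ≤ (r + 1) / 2
  · refine ⟨a ∩ b, hm, fun e he => ?_⟩
    obtain ⟨x, hx1, hx2, hx3⟩ := hcommon a hp.1 b hp.2 e he
    exact ⟨x, mem_inter.mpr ⟨mem_inter.mpr ⟨hx1, hx2⟩, hx3⟩⟩
  · push Not at hm
    have hacard : a.card = r := hH.1 a hp.1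
    obtain ⟨S, hSa, hS⟩ := Finset.exists_subset_card_eq (s := a) (n := (r + 1) / 2)
      (by omega)
    refine ⟨S, hS.le, fun e he => ?_⟩
    by_contra hcon
    rw [not_nonempty_iff_eq_empty, ← disjoint_iff_inter_eq_empty] at hcon
    have h1 := hmin (a, e) (mem_product.mpr ⟨hp.1, he⟩)
    simp only at h1
    have h2 : (a ∩ e) ⊆ a \ S := by
      intro x hx
      rw [mem_inter] at hx
      rw [mem_sdiff]
      exact ⟨hx.1, fun hxS => (Finset.disjoint_left.mp hcon hxS) hx.2⟩
    have h3 := card_le_card h2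
    rw [card_sdiff_of_subset hSa, hS, hacard] at h3
    omega

/-- **Upper bound.** -/
theorem upper (r : ℕ) (s : ℕ) : ∀ H : Finset (Finset V), Local r (s + 3) (s + 1) H →
    ∃ T : Finset V, T.card ≤ s * r + (r + 1) / 2 ∧ IsTransversal T H := by
  classical
  induction s with
  | zero =>
    intro H hH
    obtain ⟨T, h1, h2⟩ := upper_one r H hH
    exact ⟨T, by omega, h2⟩
  | succ s ih =>
    intro H hH
    rcases H.eq_empty_or_nonempty with rfl | ⟨e, he⟩
    · exact ⟨∅, by simp, fun e he => by simp at he⟩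
    have hlocal : Local r (s + 3) (s + 1) (H.filter (fun g => Disjoint e g)) := by
      refine ⟨fun g hg => hH.1 g (mem_filter.mp hg).1, fun F hF hFc => ?_⟩
      obtain ⟨T, hT1, hT2⟩ := hH.2 (insert e F) (by
        intro x hx
        rcases mem_insert.mp hx with rfl | hx
        · exact he
        · exact (mem_filter.mp (hF hx)).1) ((card_insert_le _ _).trans (by omega))
      obtain ⟨x, hx⟩ := hT2 e (mem_insert_self _ _)
      rw [mem_inter] at hx
      refine ⟨T.erase x, ?_, fun g hg => ?_⟩
      · rw [card_erase_of_mem hx.1]; omega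
      · obtain ⟨y, hy⟩ := hT2 g (mem_insert_of_mem hg)
        rw [mem_inter] at hy
        refine ⟨y, mem_inter.mpr ⟨mem_erase.mpr ⟨?_, hy.1⟩, hy.2⟩⟩
        rintro rfl
        have hd := (mem_filter.mp (hF hg)).2
        exact (Finset.disjoint_left.mp hd hx.2) hy.2
    obtain ⟨T, hT1, hT2⟩ := ih _ hlocal
    refine ⟨T ∪ e, ?_, fun g hg => ?_⟩
    · refine (card_union_le _ _).trans ?_
      rw [hH.1 e he]
      have : (s + 1) * r = s * r + r := by ring
      omega
    · by_cases hd : Disjoint e g
      · obtain ⟨y, hy⟩ := hT2 g (mem_filter.mpr ⟨hg, hd⟩)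
        rw [mem_inter] at hy
        exact ⟨y, mem_inter.mpr ⟨mem_union_left _ hy.1, hy.2⟩⟩
      · rw [Finset.not_disjoint_iff] at hd
        obtain ⟨y, hy1, hy2⟩ := hd
        exact ⟨y, mem_inter.mpr ⟨mem_union_right _ hy1, hy2⟩⟩

/-- members of a pairwise disjoint family -/
theorem card_union_disjoint (r : ℕ) (F : Finset (Finset V)) (hr : ∀ e ∈ F, e.card = r)
    (hd : ∀ e ∈ F, ∀ g ∈ F, e ≠ g → Disjoint e g) : (F.biUnion id).card = F.card * r := by
  classical
  have h1 : (F.biUnion id).card = ∑ e ∈ F, e.card :=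
    card_biUnion (fun e he g hg hne => hd e he g hg hne)
  rw [h1, Finset.sum_congr rfl hr, Finset.sum_const, smul_eq_mul]

/-- three sets without common vertex have union at least `3r/2` -/
theorem three_union (r : ℕ) (a b c : Finset V) (ha : a.card = r) (hb : b.card = r)
    (hc : c.card = r) (h : a ∩ b ∩ c = ∅) : 3 * r ≤ 2 * (a ∪ b ∪ c).card := by
  have h1 := card_union_add_card_inter a b
  have h2 := card_union_add_card_inter (a ∪ b) c
  have h3 : (a ∪ b) ∩ c = (a ∩ c) ∪ (b ∩ c) := union_inter_distrib_right a b c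
  have h4 := card_union_add_card_inter (a ∩ c) (b ∩ c)
  have h5 : (a ∩ c) ∩ (b ∩ c) = ∅ := by
    rw [← h]; ext x; simp only [mem_inter]; tauto
  rw [h5, card_empty, add_zero] at h4
  rw [h3, h4] at h2
  -- a ∩ b, a ∩ c, b ∩ c are pairwise disjoint subsets
  have h6 : (a ∩ c).card + (a ∩ b).card ≤ r := by
    rw [← ha]
    rw [← card_union_of_disjoint]
    · exact card_le_card (union_subset inter_subset_left inter_subset_left)
    · rw [disjoint_iff_inter_eq_empty, ← h]; ext x; simp only [mem_inter]; tauto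
  have h7 : (b ∩ c).card + (a ∩ b).card ≤ r := by
    rw [← hb]
    rw [← card_union_of_disjoint]
    · exact card_le_card (union_subset inter_subset_left inter_subset_right)
    · rw [disjoint_iff_inter_eq_empty, ← h]; ext x; simp only [mem_inter]; tauto
  have h8 : (a ∩ c).card + (b ∩ c).card ≤ r := by
    rw [← hc]
    rw [← card_union_of_disjoint]
    · exact card_le_card (union_subset inter_subset_right inter_subset_right)
    · rw [disjoint_iff_inter_eq_empty, ← h]; ext x; simp only [mem_inter]; tauto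
  omega

end general

/-- **Key lemma for the lower bound**: in fewer than `(2s+1)r/2` vertices, any `s+2` sets of size
`r` have a transversal of size `s`. -/
theorem key {n : ℕ} (r s : ℕ) (hr : 1 ≤ r) (hs : 1 ≤ s) (hn : 2 * n < (2 * s + 1) * r)
    (F : Finset (Finset (Fin n))) (hF : ∀ e ∈ F, e.card = r) (hFc : F.card ≤ s + 2) :
    ∃ T : Finset (Fin n), T.card ≤ s ∧ IsTransversal T F := by
  classical
  have hne : ∀ e ∈ F, e.Nonempty := fun e he => by
    rw [← card_pos, hF e he]; omega
  by_cases h0 : F.card ≤ s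
  · obtain ⟨T, h1, h2⟩ := pick F hne
    exact ⟨T, h1.trans h0, h2⟩
  push Not at h0
  -- two members meet
  have hsmall : ∀ A : Finset (Fin n), A.card ≤ n := fun A => by
    simpa using card_le_univ A
  have hmeet : ∃ e ∈ F, ∃ g ∈ F, e ≠ g ∧ ¬ Disjoint e g := by
    by_contra hcon
    push Not at hcon
    have h1 := card_union_disjoint r F hF hcon
    have h2 := hsmall (F.biUnion id)
    rw [h1] at h2
    have h0' : s + 1 ≤ F.card := h0
    have h3 : (s + 1) * r ≤ F.card * r := Nat.mul_le_mul_right r h0'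
    have h4 : (2 * s + 1) * r ≤ 2 * ((s + 1) * r) := by nlinarith
    exact absurd (hn.trans_le (h4.trans (Nat.mul_le_mul_left 2 (h3.trans h2)))) (lt_irrefl _)
  obtain ⟨e, he, g, hg, heg, hnd⟩ := hmeet
  rw [Finset.not_disjoint_iff] at hnd
  obtain ⟨v, hve, hvg⟩ := hnd
  have hpair : ({e, g} : Finset (Finset (Fin n))) ⊆ F := by
    intro x hx
    simp only [mem_insert, mem_singleton] at hx
    rcases hx with rfl | rfl <;> assumption
  have hpc : ({e, g} : Finset (Finset (Fin n))).card = 2 := card_pair heg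
  by_cases h1 : F.card ≤ s + 1
  · obtain ⟨T, hT1, hT2⟩ := pick_common F {e, g} hne hpair v (by
      intro x hx
      simp only [mem_insert, mem_singleton] at hx
      rcases hx with rfl | rfl <;> assumption)
    rw [hpc] at hT1
    exact ⟨T, by omega, hT2⟩
  have hFs : F.card = s + 2 := by omega
  -- two disjoint meeting pairs suffice
  have htwo : ∀ a ∈ F, ∀ b ∈ F, ∀ c ∈ F, ∀ d ∈ F, a ≠ b → c ≠ d → a ≠ c → a ≠ d → b ≠ c →
      b ≠ d → ¬ Disjoint a b → ¬ Disjoint c d →
      ∃ T : Finset (Fin n), T.card ≤ s ∧ IsTransversal T F := by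
    intro a ha b hb c hc d hd hab hcd hac had hbc hbd h1 h2
    rw [Finset.not_disjoint_iff] at h1 h2
    obtain ⟨x, hxa, hxb⟩ := h1
    obtain ⟨y, hyc, hyd⟩ := h2
    have q1 : ({a, b} : Finset (Finset (Fin n))) ⊆ F := by
      intro z hz
      simp only [mem_insert, mem_singleton] at hz
      rcases hz with rfl | rfl <;> assumption
    have q2 : ({c, d} : Finset (Finset (Fin n))) ⊆ F := by
      intro z hz
      simp only [mem_insert, mem_singleton] at hz
      rcases hz with rfl | rfl <;> assumption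
    have q3 : Disjoint ({a, b} : Finset (Finset (Fin n))) {c, d} := by
      rw [Finset.disjoint_left]
      intro z hz hz'
      simp only [mem_insert, mem_singleton] at hz hz'
      rcases hz with rfl | rfl <;> rcases hz' with rfl | rfl <;> simp_all
    have q4 := card_le_card (union_subset q1 q2)
    rw [card_union_of_disjoint q3, card_pair hab, card_pair hcd] at q4
    obtain ⟨T, hT1, hT2⟩ := pick_common2 F {a, b} {c, d} hne q1 q2 q3 x y (by
      intro z hz
      simp only [mem_insert, mem_singleton] at hz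
      rcases hz with rfl | rfl <;> assumption) (by
      intro z hz
      simp only [mem_insert, mem_singleton] at hz
      rcases hz with rfl | rfl <;> assumption)
    rw [card_pair hab, card_pair hcd] at hT1
    exact ⟨T, by omega, hT2⟩
  by_contra hno
  have hno2 : ∀ a ∈ F, ∀ b ∈ F, ∀ c ∈ F, ∀ d ∈ F, a ≠ b → c ≠ d → a ≠ c → a ≠ d → b ≠ c →
      b ≠ d → ¬ Disjoint a b → Disjoint c d := by
    intro a ha b hb c hc d hd hab hcd hac had hbc hbd h1
    by_contra h2
    exact hno (htwo a ha b hb c hc d hd hab hcd hac had hbc hbd h1 h2)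
  have hthree : ∀ a ∈ F, ∀ b ∈ F, ∀ c ∈ F, a ≠ b → a ≠ c → b ≠ c → a ∩ b ∩ c = ∅ := by
    intro a ha b hb c hc hab hac hbc
    by_contra hcon
    rw [← ne_eq, ← nonempty_iff_ne_empty] at hcon
    obtain ⟨x, hx⟩ := hcon
    rw [mem_inter, mem_inter] at hx
    apply hno
    obtain ⟨T, hT1, hT2⟩ := pick_common F {a, b, c} hne (by
      intro z hz
      simp only [mem_insert, mem_singleton] at hz
      rcases hz with rfl | rfl | rfl <;> assumption) x (by
      intro z hz
      simp only [mem_insert, mem_singleton] at hz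
      rcases hz with rfl | rfl | rfl
      · exact hx.1.1
      · exact hx.1.2
      · exact hx.2)
    have h3 : ({a, b, c} : Finset (Finset (Fin n))).card = 3 := by
      rw [card_insert_of_notMem (by simp [hab, hac]), card_pair hbc]
    rw [h3] at hT1
    exact ⟨T, by omega, hT2⟩
  -- the members other than `e`, `g` are pairwise disjoint
  set F' := (F.erase e).erase g with hF'
  have hF'sub : ∀ x ∈ F', x ∈ F ∧ x ≠ e ∧ x ≠ g := by
    intro x hx
    rw [hF', mem_erase, mem_erase] at hx
    exact ⟨hx.2.2, hx.2.1, hx.1⟩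
  have hF'card : F'.card = s := by
    rw [hF', card_erase_of_mem (mem_erase.mpr ⟨heg.symm, hg⟩), card_erase_of_mem he]
    omega
  have hegnd : ¬ Disjoint e g := by
    rw [Finset.not_disjoint_iff]; exact ⟨v, hve, hvg⟩
  have hF'd : ∀ x ∈ F', ∀ y ∈ F', x ≠ y → Disjoint x y := by
    intro x hx y hy hxy
    obtain ⟨hx1, hx2, hx3⟩ := hF'sub x hx
    obtain ⟨hy1, hy2, hy3⟩ := hF'sub y hy
    exact hno2 e he g hg x hx1 y hy1 heg hxy hx2.symm hy2.symm hx3.symm hy3.symm hegnd
  -- if all members of `F'` avoid `a ∈ {e, g}` then the union is too large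
  have hbig : ∀ a ∈ F, (∀ x ∈ F', x ≠ a ∧ Disjoint x a) → False := by
    intro a ha hall
    have hnot : a ∉ F' := fun h => (hall a h).1 rfl
    have h1 := card_union_disjoint r (insert a F') (by
      intro x hx
      rcases mem_insert.mp hx with rfl | hx
      · exact hF x ha
      · exact hF x (hF'sub x hx).1) (by
      intro x hx y hy hxy
      rcases mem_insert.mp hx with hxa | hx'
      · rcases mem_insert.mp hy with hya | hy'
        · exact absurd (hxa.trans hya.symm) hxy
        · rw [hxa]; exact (hall y hy').2.symm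
      · rcases mem_insert.mp hy with hya | hy'
        · rw [hya]; exact (hall x hx').2
        · exact hF'd x hx' y hy' hxy)
    rw [card_insert_of_notMem hnot, hF'card] at h1
    have h2 := hsmall ((insert a F').biUnion id)
    have h4 : (2 * s + 1) * r ≤ 2 * ((s + 1) * r) := by nlinarith
    omega
  have hE : ∃ x ∈ F', ¬ Disjoint x e := by
    by_contra hcon
    push Not at hcon
    exact hbig e he (fun x hx => ⟨(hF'sub x hx).2.1, hcon x hx⟩)
  have hG : ∃ x ∈ F', ¬ Disjoint x g := by
    by_contra hcon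
    push Not at hcon
    exact hbig g hg (fun x hx => ⟨(hF'sub x hx).2.2, hcon x hx⟩)
  obtain ⟨x, hx, hxe⟩ := hE
  obtain ⟨y, hy, hyg⟩ := hG
  obtain ⟨hx1, hx2, hx3⟩ := hF'sub x hx
  obtain ⟨hy1, hy2, hy3⟩ := hF'sub y hy
  have hxy : x = y := by
    by_contra hxy
    exact hyg (hno2 x hx1 e he y hy1 g hg hx2 hy3 hxy hx3 hy2.symm heg hxe)
  subst hxy
  -- all other members are disjoint from `e`, `g`, `x`
  set A := e ∪ g ∪ x with hA
  have hothers : ∀ z ∈ F'.erase x, Disjoint z A := by
    intro z hz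
    rw [mem_erase] at hz
    obtain ⟨hz1, hz2, hz3⟩ := hF'sub z hz.2
    have d1 : Disjoint z e := by
      have := hno2 x hx1 g hg z hz1 e he hx3 hz2 (Ne.symm hz.1) hx2 hz3.symm heg.symm hyg
      exact this
    have d2 : Disjoint z g := by
      have := hno2 x hx1 e he z hz1 g hg hx2 hz3 (Ne.symm hz.1) hx3 hz2.symm heg hxe
      exact this
    have d3 : Disjoint z x := hF'd z hz.2 x hx hz.1
    rw [hA, Finset.disjoint_union_right, Finset.disjoint_union_right]
    exact ⟨⟨d1, d2⟩, d3⟩
  have hAcard : 3 * r ≤ 2 * A.card :=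
    three_union r e g x (hF e he) (hF g hg) (hF x hx1)
      (hthree e he g hg x hx1 heg hx2.symm hx3.symm)
  have hU := card_union_disjoint r (F'.erase x) (fun z hz => hF z (hF'sub z (mem_erase.mp hz).2).1)
    (fun z hz w hw hzw => hF'd z (mem_erase.mp hz).2 w (mem_erase.mp hw).2 hzw)
  rw [card_erase_of_mem hx, hF'card] at hU
  have hdis : Disjoint ((F'.erase x).biUnion id) A := by
    rw [Finset.disjoint_biUnion_left]
    intro z hz
    exact hothers z hz
  have htot := hsmall ((F'.erase x).biUnion id ∪ A)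
  rw [card_union_of_disjoint hdis, hU] at htot
  have h5 : 2 * ((s - 1) * r) + 3 * r = (2 * s + 1) * r := by
    obtain ⟨s', rfl⟩ : ∃ s', s = s' + 1 := ⟨s - 1, by omega⟩
    simp only [Nat.add_sub_cancel]
    ring
  omega

/-- **Theorem.** `f_r(s+2,s) = ⌈(2s-1)r/2⌉` for all `r, s ≥ 1`. -/
theorem result (r s : ℕ) (hr : 1 ≤ r) (hs : 1 ≤ s) :
    f r (s + 2) s = ((2 * s - 1) * r + 1) / 2 := by
  classical
  obtain ⟨s', rfl⟩ : ∃ s', s = s' + 1 := ⟨s - 1, by omega⟩
  have hval : ((2 * (s' + 1) - 1) * r + 1) / 2 = s' * r + (r + 1) / 2 := by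
    have h1 : 2 * (s' + 1) - 1 = 2 * s' + 1 := by omega
    rw [h1]
    have h2 : (2 * s' + 1) * r + 1 = 2 * (s' * r) + (r + 1) := by ring
    rw [h2]; omega
  rw [hval]
  apply le_antisymm
  · apply Nat.sInf_le
    intro n H hH
    exact upper r s' H hH
  · apply le_csInf
    · exact ⟨_, fun n H hH => upper r s' H hH⟩
    · intro f hf
      -- the complete `r`-graph
      set N := s' * r + (r + 1) / 2 + (r - 1) with hN
      have hloc : Local r (s' + 1 + 2) (s' + 1) (powersetCard r (univ : Finset (Fin N))) := by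
        refine ⟨fun e he => (mem_powersetCard.mp he).2, fun F hF hFc => ?_⟩
        refine key r (s' + 1) hr (by omega) ?_ F
          (fun e he => (mem_powersetCard.mp (hF he)).2) hFc
        have h2 : (2 * (s' + 1) + 1) * r = 2 * (s' * r) + 3 * r := by ring
        rw [h2, hN]; omega
      obtain ⟨T, hT1, hT2⟩ := hf N _ hloc
      by_contra hlt
      push Not at hlt
      have hTc : r ≤ (Tᶜ).card := by
        rw [card_compl, Fintype.card_fin]
        omega
      obtain ⟨e, he, hec⟩ := Finset.exists_subset_card_eq hTc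
      obtain ⟨x, hx⟩ := hT2 e (mem_powersetCard.mpr ⟨subset_univ _, hec⟩)
      rw [mem_inter] at hx
      exact (mem_compl.mp (he hx.2)) hx.1

end Pool.Agent.Results.MP_a8cb64_co.SlackTwo
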